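import Mathlib
import Pool.Agent.Lib.P37d31dH.Periods

set_option autoImplicit false

namespace Pool.Agent.Results.MP_37d31d_al.CoprimeModuli

/-- A quandle structure on `X`: `x * x = x`, the right translations `x ↦ x * y` are bijections,
and `(x * y) * z = (x * z) * (y * z)`. -/
structure QuandleOn (X : Type) where
  /-- the operation `x * y` -/
  op : X → X → X
  idem : ∀ x, op x x = x
  bij : ∀ y, Function.Bijective (fun x => op x y)
  distrib : ∀ x y z, op (op x y) z = op (op x z) (op y z)

variable {X : Type}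

/-- The right translation `R_y`, `R_y x = x * y`, as a permutation. -/
noncomputable def QuandleOn.R (Q : QuandleOn X) (y : X) : Equiv.Perm X :=
  Equiv.ofBijective (fun x => Q.op x y) (Q.bij y)

/-- `Inn(X)`: the subgroup of permutations generated by the right translations. -/
def QuandleOn.Inn (Q : QuandleOn X) : Subgroup (Equiv.Perm X) :=
  Subgroup.closure (Set.range Q.R)

/-- The quandle is connected: `Inn(X)` acts transitively. -/
def QuandleOn.Connected (Q : QuandleOn X) : Prop :=
  ∀ a b : X, ∃ g ∈ Q.Inn, g a = b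

/-- The profile of `X` read off at `y`: the list, in increasing order, of the lengths of all
cycles of `R_y`, fixed points included, with multiplicity. -/
noncomputable def QuandleOn.profile [Fintype X] [DecidableEq X] (Q : QuandleOn X) (y : X) :
    List ℕ :=
  (Q.R y).partition.parts.sort (· ≤ ·)

namespace CoprimeModuliAux

open Pool.Agent.Lib.P37d31dH

theorem R_apply (Q : QuandleOn X) (x y : X) : Q.R y x = Q.op x y := rfl

/-- Elements of `Inn(X)` conjugate right translations. -/
theorem R_conj (Q : QuandleOn X) {g : Equiv.Perm X} (hg : g ∈ Q.Inn) :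
    ∀ y, Q.R (g y) = g * Q.R y * g⁻¹ := by
  unfold QuandleOn.Inn at hg
  induction hg using Subgroup.closure_induction with
  | mem g hg =>
    obtain ⟨z, rfl⟩ := hg
    intro y
    rw [eq_mul_inv_iff_mul_eq]
    ext x
    change Q.op (Q.op x z) (Q.op y z) = Q.op (Q.op x y) z
    exact (Q.distrib x y z).symm
  | one =>
    intro y
    simp
  | mul a b _ _ ha hb =>
    intro y
    rw [Equiv.Perm.mul_apply, ha, hb]
    group
  | inv a _ ha =>
    intro y
    have h := ha (a⁻¹ y)
    have h2 : a (a⁻¹ y) = y := by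
      change a (a.symm y) = y
      exact a.apply_symm_apply y
    rw [h2] at h
    rw [h]
    group

theorem profile_eq [Fintype X] [DecidableEq X] (Q : QuandleOn X) (hQ : Q.Connected) (y z : X) :
    Q.profile y = Q.profile z := by
  obtain ⟨g, hg, rfl⟩ := hQ y z
  have h1 : IsConj (Q.R y) (Q.R (g y)) := by
    rw [isConj_iff]
    exact ⟨g, (R_conj Q hg y).symm⟩
  unfold QuandleOn.profile
  rw [Equiv.Perm.partition_eq_of_isConj.mp h1]

/-- The lengths of the cycles are the minimal periods. -/
theorem mem_parts_iff [Fintype X] [DecidableEq X] (σ : Equiv.Perm X) (n : ℕ) :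
    n ∈ σ.partition.parts ↔ ∃ x, Function.minimalPeriod σ x = n := by
  have hkey : ∀ x, σ x ≠ x → (σ.cycleOf x).support.card = Function.minimalPeriod σ x := by
    intro x hx
    have hc : (σ.cycleOf x).IsCycle := Equiv.Perm.isCycle_cycleOf σ hx
    rw [← hc.orderOf]
    apply Nat.dvd_antisymm
    · rw [orderOf_dvd_iff_pow_eq_one, hc.pow_eq_one_iff]
      refine ⟨x, ?_, ?_⟩
      · rwa [Equiv.Perm.cycleOf_apply_self]
      · rw [Equiv.Perm.cycleOf_pow_apply_self]
        have := Function.iterate_minimalPeriod (f := σ) (x := x)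
        rwa [Equiv.Perm.iterate_eq_pow] at this
    · rw [← Function.isPeriodicPt_iff_minimalPeriod_dvd]
      change σ^[orderOf (σ.cycleOf x)] x = x
      rw [Equiv.Perm.iterate_eq_pow, ← Equiv.Perm.cycleOf_pow_apply_self, pow_orderOf_eq_one]
      rfl
  rw [Equiv.Perm.parts_partition, Multiset.mem_add, Multiset.mem_replicate]
  constructor
  · rintro (h | ⟨h1, rfl⟩)
    · rw [Equiv.Perm.cycleType_def, Multiset.mem_map] at h
      obtain ⟨c, hc, rfl⟩ := h
      have hc' : c ∈ σ.cycleFactorsFinset := hc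
      obtain ⟨hcy, hcs⟩ := Equiv.Perm.mem_cycleFactorsFinset_iff.mp hc'
      obtain ⟨x, hx, -⟩ := hcy
      have hxs : x ∈ c.support := Equiv.Perm.mem_support.mpr hx
      have h1 : c = σ.cycleOf x := Equiv.Perm.cycle_is_cycleOf hxs hc'
      have h2 : σ x ≠ x := by
        rw [← hcs x hxs]
        exact hx
      refine ⟨x, ?_⟩
      rw [← hkey x h2, ← h1]
      rfl
    · have : ∃ x, x ∉ σ.support := by
        by_contra hcon
        push Not at hcon
        apply h1
        rw [Nat.sub_eq_zero_iff_le, ← Finset.card_univ]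
        exact Finset.card_le_card fun x _ => hcon x
      obtain ⟨x, hx⟩ := this
      rw [Equiv.Perm.notMem_support] at hx
      exact ⟨x, Function.minimalPeriod_eq_one_iff_isFixedPt.mpr hx⟩
  · rintro ⟨x, rfl⟩
    by_cases hx : σ x = x
    · right
      have h1 : Function.minimalPeriod σ x = 1 :=
        Function.minimalPeriod_eq_one_iff_isFixedPt.mpr hx
      refine ⟨?_, h1⟩
      rw [Nat.sub_ne_zero_iff_lt, ← Finset.card_univ]
      apply Finset.card_lt_card
      rw [Finset.ssubset_univ_iff]
      intro h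
      have h2 : x ∈ σ.support := by rw [h]; exact Finset.mem_univ x
      exact Equiv.Perm.mem_support.mp h2 hx
    · left
      rw [← hkey x hx, Equiv.Perm.cycleType_def, Multiset.mem_map]
      refine ⟨σ.cycleOf x, ?_, rfl⟩
      change σ.cycleOf x ∈ σ.cycleFactorsFinset
      rw [Equiv.Perm.cycleOf_mem_cycleFactorsFinset_iff]
      exact Equiv.Perm.mem_support.mpr hx

/-- The quandle of the base file in the right-handed convention. -/
def quandle (r : Fin 4 → ℕ) : QuandleOn (Pool.Agent.Lib.P37d31dH.X r) where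
  op x y := op y x
  idem x := op_self x
  bij y := Function.bijective_iff_has_inverse.mpr
    ⟨fun x => iop y x, fun x => iop_op y x, fun x => op_iop y x⟩
  distrib x y z := op_distrib z y x

theorem quandle_R (r : Fin 4 → ℕ) (y : Pool.Agent.Lib.P37d31dH.X r) :
    (quandle r).R y = Rack.act' y := by
  ext x
  rfl

theorem quandle_connected {r : Fin 4 → ℕ} (hodd : ∀ i, Odd (r i)) : (quandle r).Connected := by
  intro a b
  obtain ⟨g, hg, hgab⟩ := connected hodd a b
  refine ⟨g, ?_, hgab⟩
  have h : Set.range (quandle r).R = Set.range Rack.act' := by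
    congr 1
    funext y
    exact quandle_R r y
  rw [QuandleOn.Inn, h]
  exact hg

theorem not_dvd {r : Fin 4 → ℕ} (hodd : ∀ i, Odd (r i)) (h1 : ∀ i, 1 < r i)
    (hco : ∀ i j, i ≠ j → Nat.Coprime (r i) (r j)) (i : Fin 4) : ¬ r i ∣ 2 * M r i := by
  intro h
  have h2 : Nat.Coprime (r i) (M r i) := by
    unfold M
    apply Nat.Coprime.prod_right
    intro j hj
    exact hco i j (Finset.mem_erase.mp hj).1.symm
  have h3 : Nat.Coprime (r i) 2 := Nat.coprime_two_right.mpr (hodd i)
  have h4 : Nat.Coprime (r i) (2 * M r i) := Nat.Coprime.mul_right h3 h2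
  have h5 : r i ∣ 1 := by
    rw [← Nat.Coprime.gcd_eq_one h4]
    exact Nat.dvd_gcd dvd_rfl h
  have := Nat.le_of_dvd one_pos h5
  have := h1 i
  omega

end CoprimeModuliAux

open CoprimeModuliAux Pool.Agent.Lib.P37d31dH

/-- For all pairwise coprime odd `r 0, r 1, r 2, r 3 > 1` there is a connected quandle of order
`9 * r 0 * r 1 * r 2 * r 3` whose right translations have the cycle lengths `1`, `2` and
`2 * (product of three of the r i)`, and no others. No cycle length is a multiple of all the
others; in particular the largest one is not. -/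
theorem result (r : Fin 4 → ℕ) (hodd : ∀ i, Odd (r i)) (h1 : ∀ i, 1 < r i)
    (hco : ∀ i j, i ≠ j → Nat.Coprime (r i) (r j)) :
    ∃ (X : Type) (_ : Fintype X) (_ : DecidableEq X) (Q : QuandleOn X),
      Q.Connected ∧ Fintype.card X = 9 * ∏ i, r i ∧
      (∀ y : X, ∀ n : ℕ, n ∈ Q.profile y ↔
        n = 1 ∨ n = 2 ∨ ∃ i, n = 2 * ∏ j ∈ Finset.univ.erase i, r j) ∧
      (∀ y : X, ∀ m ∈ Q.profile y, ∃ n ∈ Q.profile y, ¬ n ∣ m) ∧
      (∀ y : X, ∃ n ∈ Q.profile y, ¬ n ∣ (Q.profile y).getLastD 0) := by
  have : ∀ i, NeZero (r i) := fun i => ⟨by have := h1 i; omega⟩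
  have hconn := quandle_connected hodd
  have hmem : ∀ y : Pool.Agent.Lib.P37d31dH.X r, ∀ n : ℕ, n ∈ (quandle r).profile y ↔
      n = 1 ∨ n = 2 ∨ ∃ i, n = 2 * ∏ j ∈ Finset.univ.erase i, r j := by
    intro y n
    rw [profile_eq (quandle r) hconn y x0]
    unfold QuandleOn.profile
    rw [Multiset.mem_sort, mem_parts_iff]
    change (∃ z, Function.minimalPeriod (Shelf.act (x0 : Pool.Agent.Lib.P37d31dH.X r)) z = n) ↔ _
    constructor
    · rintro ⟨z, rfl⟩
      by_cases hz : z.1 = 0
      · rcases (Nat.dvd_prime Nat.prime_two).mp (period_zero z hz) with h | h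
        · exact Or.inl h
        · exact Or.inr (Or.inl h)
      · obtain ⟨i, hi⟩ := exists_lam z.1
        exact Or.inr (Or.inr ⟨i, period_eq hodd hco z hz i hi⟩)
    · rintro (rfl | rfl | ⟨i, rfl⟩)
      · exact ⟨x0, period_x0⟩
      · exact exists_period_two hodd h1
      · obtain ⟨v, hv0, hv⟩ := exists_zero_point i
        exact ⟨⟨v, fun _ => 0⟩, period_eq hodd hco ⟨v, fun _ => 0⟩ hv0 i hv⟩
  have hnot : ∀ y : Pool.Agent.Lib.P37d31dH.X r, ∀ m ∈ (quandle r).profile y,
      ∃ n ∈ (quandle r).profile y, ¬ n ∣ m := by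
    intro y m hm
    rw [hmem] at hm
    -- some `i` such that `m` divides `2 * M r i`
    have hi : ∃ i, m ∣ 2 * M r i := by
      rcases hm with rfl | rfl | ⟨i, rfl⟩
      · exact ⟨0, one_dvd _⟩
      · exact ⟨0, dvd_mul_right 2 _⟩
      · exact ⟨i, dvd_rfl⟩
    obtain ⟨i, hi⟩ := hi
    obtain ⟨j, hj⟩ : ∃ j : Fin 4, i ≠ j := by
      have h4 : ∀ i : Fin 4, ∃ j : Fin 4, i ≠ j := by decide
      exact h4 i
    refine ⟨2 * M r j, (hmem y _).mpr (Or.inr (Or.inr ⟨j, rfl⟩)), ?_⟩
    intro h
    apply not_dvd hodd h1 hco i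
    have h2 : r i ∣ M r j :=
      Finset.dvd_prod_of_mem r (Finset.mem_erase.mpr ⟨hj, Finset.mem_univ i⟩)
    exact ((h2.mul_left 2).trans h).trans hi
  refine ⟨Pool.Agent.Lib.P37d31dH.X r, inferInstance, inferInstance, quandle r, hconn, card_X,
    hmem, hnot, ?_⟩
  intro y
  have hone : 1 ∈ (quandle r).profile y := (hmem y 1).mpr (Or.inl rfl)
  have hne : (quandle r).profile y ≠ [] := List.ne_nil_of_mem hone
  apply hnot y
  rw [List.getLastD_eq_getLast?, List.getLast?_eq_some_getLast hne, Option.getD_some]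
  exact List.getLast_mem hne

end Pool.Agent.Results.MP_37d31d_al.CoprimeModuli
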